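import Pool.Agent.Q276.BA.Stm

/-!
# Project BA, job E: the isometry for one kernel (helper121)
-/

set_option autoImplicit false

open MeasureTheory Set Filter Topology
open scoped BigOperators ENNReal

namespace Pool.Agent.Q121.BA.E

/-- Lebesgue measure of `(0, 1]` -/
noncomputable abbrev mu : Measure ℝ := volume.restrict (Ioc (0 : ℝ) 1)

/-- the dilation of the plane -/
theorem dil {E : Type*} [NormedAddCommGroup E] [NormedSpace ℝ E] (f : ℂ → E) (s : ℝ) (hs : 0 < s) :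
    ∫ z : ℂ, f ((s : ℂ) * z) = ((s ^ 2)⁻¹ : ℝ) • ∫ z, f z := by
  have h := MeasureTheory.Measure.integral_comp_smul (volume : Measure ℂ) f s
  simp only [Complex.real_smul, Complex.finrank_real_complex] at h
  rw [h, abs_of_pos (by positivity)]

theorem dilI {E : Type*} [NormedAddCommGroup E] (f : ℂ → E) (s : ℝ) (hs : 0 < s)
    (hf : Integrable f (volume : Measure ℂ)) : Integrable (fun z : ℂ => f ((s : ℂ) * z)) (volume : Measure ℂ) := by
  have h := MeasureTheory.Integrable.comp_smul hf hs.ne'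
  simpa only [Complex.real_smul] using h

theorem pairI (h : ℂ → ℂ) (hm : Measurable h) (hI : Integrable (fun z : ℂ => ‖h z‖ ^ 2) (volume : Measure ℂ))
    (s r : ℝ) (hs : 0 < s) (hr : 0 < r) :
    Integrable (fun z : ℂ => ‖h ((s : ℂ) * z)‖ * ‖h ((r : ℂ) * z)‖) (volume : Measure ℂ) ∧
    ∫ z : ℂ, ‖h ((s : ℂ) * z)‖ * ‖h ((r : ℂ) * z)‖ ≤ s⁻¹ * r⁻¹ * ∫ z : ℂ, ‖h z‖ ^ 2 := by
  have h1 := dilI _ s hs hI
  have h2 := dilI _ r hr hI
  have h3 : Integrable (fun z : ℂ => (s / r / 2) * ‖h ((s : ℂ) * z)‖ ^ 2 + (r / s / 2) * ‖h ((r : ℂ) * z)‖ ^ 2)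
      (volume : Measure ℂ) := (h1.const_mul _).add (h2.const_mul _)
  have h4 : ∀ z : ℂ, ‖h ((s : ℂ) * z)‖ * ‖h ((r : ℂ) * z)‖ ≤
      (s / r / 2) * ‖h ((s : ℂ) * z)‖ ^ 2 + (r / s / 2) * ‖h ((r : ℂ) * z)‖ ^ 2 := by
    intro z
    have h5 : (s / r / 2) * ‖h ((s : ℂ) * z)‖ ^ 2 + (r / s / 2) * ‖h ((r : ℂ) * z)‖ ^ 2 -
        ‖h ((s : ℂ) * z)‖ * ‖h ((r : ℂ) * z)‖ =
        (s * ‖h ((s : ℂ) * z)‖ - r * ‖h ((r : ℂ) * z)‖) ^ 2 / (2 * (s * r)) := by
      field_simp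
      ring
    have h6 : 0 ≤ (s * ‖h ((s : ℂ) * z)‖ - r * ‖h ((r : ℂ) * z)‖) ^ 2 / (2 * (s * r)) := by positivity
    linarith
  have h7 : Integrable (fun z : ℂ => ‖h ((s : ℂ) * z)‖ * ‖h ((r : ℂ) * z)‖) (volume : Measure ℂ) := by
    refine h3.mono' ?_ (Eventually.of_forall fun z => ?_)
    · exact (Measurable.mul (by fun_prop) (by fun_prop)).aestronglyMeasurable
    · rw [Real.norm_of_nonneg (by positivity)]
      exact h4 z
  refine ⟨h7, ?_⟩
  calc ∫ z : ℂ, ‖h ((s : ℂ) * z)‖ * ‖h ((r : ℂ) * z)‖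
      ≤ ∫ z : ℂ, ((s / r / 2) * ‖h ((s : ℂ) * z)‖ ^ 2 + (r / s / 2) * ‖h ((r : ℂ) * z)‖ ^ 2) :=
        integral_mono h7 h3 h4
    _ = s⁻¹ * r⁻¹ * ∫ z : ℂ, ‖h z‖ ^ 2 := by
        rw [integral_add (h1.const_mul _) (h2.const_mul _), integral_const_mul, integral_const_mul,
          dil (fun z => ‖h z‖ ^ 2) s hs, dil (fun z => ‖h z‖ ^ 2) r hr]
        simp only [smul_eq_mul]
        field_simp
        ring

theorem sqI : Integrable (fun v : ℝ => (Real.sqrt v)⁻¹) mu := by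
  have h := (intervalIntegral.intervalIntegrable_rpow' (a := 0) (b := 1) (r := -(1 / 2)) (by norm_num))
  rw [intervalIntegrable_iff_integrableOn_Ioc_of_le (by norm_num)] at h
  refine Integrable.congr h ?_
  filter_upwards [ae_restrict_mem measurableSet_Ioc] with v hv
  rw [Real.rpow_neg hv.1.le, Real.sqrt_eq_rpow]

theorem aeP : ∀ᵐ p : ℝ × ℝ ∂(mu.prod mu), (0 < p.1 ∧ p.1 ≤ 1) ∧ (0 < p.2 ∧ p.2 ≤ 1) := by
  rw [Measure.prod_restrict]
  filter_upwards [ae_restrict_mem (measurableSet_Ioc.prod measurableSet_Ioc)] with p hp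
  exact hp

/-- the correlation of the dilations -/
noncomputable def cor (h : ℂ → ℂ) (s r : ℝ) : ℂ :=
  ∫ z : ℂ, h ((s : ℂ) * z) * (starRingEnd ℂ) (h ((r : ℂ) * z))

theorem cor_int (h : ℂ → ℂ) (hm : Measurable h) (hI : Integrable (fun z : ℂ => ‖h z‖ ^ 2) (volume : Measure ℂ))
    (s r : ℝ) (hs : 0 < s) (hr : 0 < r) :
    Integrable (fun z : ℂ => h ((s : ℂ) * z) * (starRingEnd ℂ) (h ((r : ℂ) * z))) (volume : Measure ℂ) := by
  refine (pairI h hm hI s r hs hr).1.mono' ?_ (Eventually.of_forall fun z => ?_)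
  · refine (Measurable.mul (by fun_prop) ?_).aestronglyMeasurable
    exact Complex.continuous_conj.measurable.comp (by fun_prop)
  · rw [norm_mul, RCLike.norm_conj]

theorem cor_norm (h : ℂ → ℂ) (hm : Measurable h) (hI : Integrable (fun z : ℂ => ‖h z‖ ^ 2) (volume : Measure ℂ))
    (s r : ℝ) (hs : 0 < s) (hr : 0 < r) : ‖cor h s r‖ ≤ s⁻¹ * r⁻¹ * ∫ z : ℂ, ‖h z‖ ^ 2 := by
  refine (norm_integral_le_integral_norm _).trans ?_
  refine le_trans (le_of_eq ?_) (pairI h hm hI s r hs hr).2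
  refine integral_congr_ae (Eventually.of_forall fun z => ?_)
  simp only [norm_mul, RCLike.norm_conj]

theorem cor_conj (h : ℂ → ℂ) (s r : ℝ) : (starRingEnd ℂ) (cor h s r) = cor h r s := by
  unfold cor
  rw [← integral_conj]
  refine integral_congr_ae (Eventually.of_forall fun z => ?_)
  simp only [map_mul, Complex.conj_conj]
  ring

theorem cor_dil (h : ℂ → ℂ) (s r : ℝ) (hr : 0 < r) :
    cor h (s * r) r = ((r ^ 2)⁻¹ : ℝ) • cor h s 1 := by
  unfold cor
  rw [← dil _ r hr]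
  refine integral_congr_ae (Eventually.of_forall fun z => ?_)
  simp only [Complex.ofReal_one, one_mul, Complex.ofReal_mul]
  rw [mul_assoc]

/-- the integrand -/
noncomputable def FF (q : ℝ → ℝ) (h : ℂ → ℂ) (x : (ℝ × ℝ) × ℂ) : ℂ :=
  ((q x.1.1 : ℂ) * h ((Real.sqrt x.1.1 : ℂ) * x.2)) *
    (starRingEnd ℂ) ((q x.1.2 : ℂ) * h ((Real.sqrt x.1.2 : ℂ) * x.2))

theorem FF_meas (q : ℝ → ℝ) (hq : Continuous q) (h : ℂ → ℂ) (hm : Measurable h) : Measurable (FF q h) := by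
  unfold FF
  have hq' := hq.measurable
  refine Measurable.mul (by fun_prop) ?_
  exact Complex.continuous_conj.measurable.comp (by fun_prop)

theorem FF_int (q : ℝ → ℝ) (hq : Continuous q) (h : ℂ → ℂ) (hm : Measurable h)
    (hI : Integrable (fun z : ℂ => ‖h z‖ ^ 2) (volume : Measure ℂ)) :
    Integrable (FF q h) ((mu.prod mu).prod (volume : Measure ℂ)) := by
  obtain ⟨C, hC⟩ := isCompact_Icc.exists_bound_of_continuousOn (s := Icc (0 : ℝ) 1) hq.continuousOn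
  have hC0 : 0 ≤ C := le_trans (norm_nonneg _) (hC 0 (by simp))
  rw [integrable_prod_iff (FF_meas q hq h hm).aestronglyMeasurable]
  have hn : ∀ x : (ℝ × ℝ) × ℂ, ‖FF q h x‖ = (|q x.1.1| * |q x.1.2|) *
      (‖h ((Real.sqrt x.1.1 : ℂ) * x.2)‖ * ‖h ((Real.sqrt x.1.2 : ℂ) * x.2)‖) := by
    intro x
    unfold FF
    rw [norm_mul, RCLike.norm_conj, norm_mul, norm_mul, Complex.norm_real, Complex.norm_real]
    simp only [Real.norm_eq_abs]
    ring
  constructor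
  · filter_upwards [aeP] with p hp
    have h1 := (pairI h hm hI (Real.sqrt p.1) (Real.sqrt p.2) (Real.sqrt_pos.2 hp.1.1)
      (Real.sqrt_pos.2 hp.2.1)).1
    refine (h1.const_mul (|q p.1| * |q p.2|)).mono' ?_ (Eventually.of_forall fun z => ?_)
    · exact ((FF_meas q hq h hm).comp (by fun_prop : Measurable fun z : ℂ => (p, z))).aestronglyMeasurable
    · rw [hn]
  · have h2 : Integrable (fun p : ℝ × ℝ => (Real.sqrt p.1)⁻¹ * (Real.sqrt p.2)⁻¹) (mu.prod mu) :=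
      sqI.mul_prod sqI
    refine (h2.const_mul (C * C * ∫ z : ℂ, ‖h z‖ ^ 2)).mono' ?_ ?_
    · exact ((FF_meas q hq h hm).norm.stronglyMeasurable.integral_prod_right').aestronglyMeasurable
    · filter_upwards [aeP] with p hp
      have h1 := (pairI h hm hI (Real.sqrt p.1) (Real.sqrt p.2) (Real.sqrt_pos.2 hp.1.1)
        (Real.sqrt_pos.2 hp.2.1)).2
      simp only [hn]
      rw [integral_const_mul, Real.norm_of_nonneg (by positivity)]
      have h3 : |q p.1| ≤ C := hC p.1 ⟨hp.1.1.le, hp.1.2⟩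
      have h4 : |q p.2| ≤ C := hC p.2 ⟨hp.2.1.le, hp.2.2⟩
      calc |q p.1| * |q p.2| * ∫ z : ℂ, ‖h ((Real.sqrt p.1 : ℂ) * z)‖ * ‖h ((Real.sqrt p.2 : ℂ) * z)‖
          ≤ (C * C) * ((Real.sqrt p.1)⁻¹ * (Real.sqrt p.2)⁻¹ * ∫ z : ℂ, ‖h z‖ ^ 2) := by
            refine mul_le_mul (mul_le_mul h3 h4 (abs_nonneg _) hC0) h1 (by positivity) (by positivity)
        _ = _ := by ring

theorem FF_z (q : ℝ → ℝ) (h : ℂ → ℂ) (p : ℝ × ℝ) :
    ∫ z : ℂ, FF q h (p, z) = ((q p.1 : ℂ) * (q p.2 : ℂ)) * cor h (Real.sqrt p.1) (Real.sqrt p.2) := by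
  unfold FF cor
  rw [← integral_const_mul]
  refine integral_congr_ae (Eventually.of_forall fun z => ?_)
  simp only [map_mul, Complex.conj_ofReal]
  ring

/-- the integral part of the operator -/
noncomputable def KK (q : ℝ → ℝ) (h : ℂ → ℂ) (z : ℂ) : ℂ :=
  ∫ v, (q v : ℂ) * h ((Real.sqrt v : ℂ) * z) ∂mu

theorem FF_vw (q : ℝ → ℝ) (h : ℂ → ℂ) (z : ℂ) :
    ∫ p, FF q h (p, z) ∂(mu.prod mu) = KK q h z * (starRingEnd ℂ) (KK q h z) := by
  unfold KK
  rw [← integral_conj, ← integral_prod_mul]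
  rfl

theorem KK_sqI (q : ℝ → ℝ) (hq : Continuous q) (h : ℂ → ℂ) (hm : Measurable h)
    (hI : Integrable (fun z : ℂ => ‖h z‖ ^ 2) (volume : Measure ℂ)) :
    Integrable (fun z : ℂ => KK q h z * (starRingEnd ℂ) (KK q h z)) (volume : Measure ℂ) := by
  have h1 := (FF_int q hq h hm hI).integral_prod_right
  simpa only [FF_vw] using h1

theorem KK_sq (q : ℝ → ℝ) (hq : Continuous q) (h : ℂ → ℂ) (hm : Measurable h)
    (hI : Integrable (fun z : ℂ => ‖h z‖ ^ 2) (volume : Measure ℂ)) :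
    ∫ z : ℂ, KK q h z * (starRingEnd ℂ) (KK q h z) =
      ∫ p, ((q p.1 : ℂ) * (q p.2 : ℂ)) * cor h (Real.sqrt p.1) (Real.sqrt p.2) ∂(mu.prod mu) := by
  have h1 := integral_integral_swap (f := fun (p : ℝ × ℝ) (z : ℂ) => FF q h (p, z)) (FF_int q hq h hm hI)
  simp only [FF_vw, FF_z] at h1
  exact h1.symm

theorem WW_int (q : ℝ → ℝ) (hq : Continuous q) (h : ℂ → ℂ) (hm : Measurable h)
    (hI : Integrable (fun z : ℂ => ‖h z‖ ^ 2) (volume : Measure ℂ)) :
    Integrable (fun p : ℝ × ℝ => ((q p.1 : ℂ) * (q p.2 : ℂ)) * cor h (Real.sqrt p.1) (Real.sqrt p.2))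
      (mu.prod mu) := by
  have h1 := (FF_int q hq h hm hI).integral_prod_left
  simpa only [FF_z] using h1

theorem cor_meas (h : ℂ → ℂ) (hm : Measurable h) : Measurable (fun v : ℝ => cor h (Real.sqrt v) 1) := by
  have h1 : Measurable (fun x : ℝ × ℂ => h ((Real.sqrt x.1 : ℂ) * x.2) * (starRingEnd ℂ) (h ((1 : ℝ) * x.2))) := by
    refine Measurable.mul (by fun_prop) ?_
    exact Complex.continuous_conj.measurable.comp (by fun_prop)
  exact (h1.stronglyMeasurable.integral_prod_right' (ν := (volume : Measure ℂ))).measurable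

theorem cor_vI (h : ℂ → ℂ) (hm : Measurable h)
    (hI : Integrable (fun z : ℂ => ‖h z‖ ^ 2) (volume : Measure ℂ)) :
    Integrable (fun v : ℝ => cor h (Real.sqrt v) 1) mu := by
  refine (sqI.mul_const (∫ z : ℂ, ‖h z‖ ^ 2)).mono' (cor_meas h hm).aestronglyMeasurable ?_
  filter_upwards [ae_restrict_mem measurableSet_Ioc] with v hv
  have h1 := cor_norm h hm hI (Real.sqrt v) 1 (Real.sqrt_pos.2 hv.1) one_pos
  simpa using h1

theorem half (q : ℝ → ℝ) (hq : Continuous q)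
    (hk : ∀ lam : ℝ, 0 < lam → lam < 1 → ∫ w in (0 : ℝ)..1, q (lam * w) * q w = - q lam)
    (h : ℂ → ℂ) (hm : Measurable h)
    (hI : Integrable (fun z : ℂ => ‖h z‖ ^ 2) (volume : Measure ℂ)) (s : Set (ℝ × ℝ)) (hs : MeasurableSet s)
    (hs1 : ∀ v w : ℝ, v < w → (v, w) ∈ s) (hs2 : ∀ v w : ℝ, w < v → (v, w) ∉ s) :
    ∫ p, s.indicator (fun p : ℝ × ℝ => ((q p.1 : ℂ) * (q p.2 : ℂ)) * cor h (Real.sqrt p.1) (Real.sqrt p.2)) p
      ∂(mu.prod mu) = - ∫ v, (q v : ℂ) * cor h (Real.sqrt v) 1 ∂mu := by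
  obtain ⟨C, hC⟩ := isCompact_Icc.exists_bound_of_continuousOn (s := Icc (0 : ℝ) 1) hq.continuousOn
  have hC0 : 0 ≤ C := le_trans (norm_nonneg _) (hC 0 (by simp))
  rw [integral_prod_symm _ ((WW_int q hq h hm hI).indicator hs)]
  have e1 : ∀ w ∈ Ioc (0 : ℝ) 1, ∫ v, s.indicator (fun p : ℝ × ℝ => ((q p.1 : ℂ) * (q p.2 : ℂ)) *
      cor h (Real.sqrt p.1) (Real.sqrt p.2)) (v, w) ∂mu =
      ∫ l, ((q (l * w) * q w : ℝ) : ℂ) * cor h (Real.sqrt l) 1 ∂mu := by
    intro w hw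
    have e2 : ∫ v, s.indicator (fun p : ℝ × ℝ => ((q p.1 : ℂ) * (q p.2 : ℂ)) *
        cor h (Real.sqrt p.1) (Real.sqrt p.2)) (v, w) ∂mu =
        ∫ v, (Iic w).indicator (fun v : ℝ => ((q v : ℂ) * (q w : ℂ)) * cor h (Real.sqrt v) (Real.sqrt w)) v ∂mu := by
      refine integral_congr_ae ?_
      have h0 : ∀ᵐ v : ℝ ∂mu, v ≠ w := by
        refine ae_restrict_of_ae ?_
        rw [ae_iff]
        simp
      filter_upwards [h0] with v hv
      rcases lt_or_gt_of_ne hv with h1 | h1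
      · rw [indicator_of_mem (hs1 v w h1), indicator_of_mem (mem_Iic.2 h1.le)]
      · rw [indicator_of_notMem (hs2 v w h1), indicator_of_notMem (by simpa using h1)]
    rw [e2, integral_indicator measurableSet_Iic, Measure.restrict_restrict measurableSet_Iic]
    have e3 : Iic w ∩ Ioc (0 : ℝ) 1 = Ioc 0 w := by
      ext v
      simp only [mem_inter_iff, mem_Iic, mem_Ioc]
      constructor
      · rintro ⟨h1, h2, h3⟩
        exact ⟨h2, h1⟩
      · rintro ⟨h1, h2⟩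
        exact ⟨h2, h1, h2.trans hw.2⟩
    rw [e3, ← intervalIntegral.integral_of_le hw.1.le]
    have e4 := intervalIntegral.integral_comp_mul_right (a := (0 : ℝ)) (b := 1)
      (fun v : ℝ => ((q v : ℂ) * (q w : ℂ)) * cor h (Real.sqrt v) (Real.sqrt w)) hw.1.ne'
    rw [zero_mul, one_mul] at e4
    have e5 : ∫ v in (0 : ℝ)..w, ((q v : ℂ) * (q w : ℂ)) * cor h (Real.sqrt v) (Real.sqrt w) =
        w • ∫ l in (0 : ℝ)..1, ((q (l * w) : ℂ) * (q w : ℂ)) * cor h (Real.sqrt (l * w)) (Real.sqrt w) := by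
      rw [e4, smul_smul, mul_inv_cancel₀ hw.1.ne', one_smul]
    rw [e5, intervalIntegral.integral_of_le zero_le_one, ← integral_smul]
    refine integral_congr_ae ?_
    filter_upwards [ae_restrict_mem measurableSet_Ioc] with l hl
    rw [Real.sqrt_mul hl.1.le, cor_dil h _ _ (Real.sqrt_pos.2 hw.1), Real.sq_sqrt hw.1.le]
    simp only [Complex.real_smul]
    have hw0 : (w : ℂ) ≠ 0 := by exact_mod_cast hw.1.ne'
    push_cast
    field_simp
  rw [setIntegral_congr_fun measurableSet_Ioc e1]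
  have hint : Integrable (fun x : ℝ × ℝ => ((q (x.2 * x.1) * q x.1 : ℝ) : ℂ) * cor h (Real.sqrt x.2) 1)
      (mu.prod mu) := by
    have h2 : Integrable (fun x : ℝ × ℝ => (1 : ℝ) * (Real.sqrt x.2)⁻¹) (mu.prod mu) :=
      (integrable_const (1 : ℝ)).mul_prod sqI
    refine (h2.const_mul (C * C * ∫ z : ℂ, ‖h z‖ ^ 2)).mono' ?_ ?_
    · have hq' := hq.measurable
      refine (Measurable.mul (by fun_prop) ((cor_meas h hm).comp measurable_snd)).aestronglyMeasurable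
    · filter_upwards [aeP] with p hp
      have h1 := cor_norm h hm hI (Real.sqrt p.2) 1 (Real.sqrt_pos.2 hp.2.1) one_pos
      have h3 : |q p.1| ≤ C := hC p.1 ⟨hp.1.1.le, hp.1.2⟩
      have h4 : |q (p.2 * p.1)| ≤ C :=
        hC _ ⟨mul_nonneg hp.2.1.le hp.1.1.le, mul_le_one₀ hp.2.2 hp.1.1.le hp.1.2⟩
      rw [norm_mul, Complex.norm_real, Real.norm_eq_abs, abs_mul]
      calc |q (p.2 * p.1)| * |q p.1| * ‖cor h (Real.sqrt p.2) 1‖
          ≤ (C * C) * ((Real.sqrt p.2)⁻¹ * 1⁻¹ * ∫ z : ℂ, ‖h z‖ ^ 2) := by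
            refine mul_le_mul (mul_le_mul h4 h3 (abs_nonneg _) hC0) h1 (norm_nonneg _) (by positivity)
        _ = _ := by ring
  have e6 := integral_integral_swap (μ := mu) (ν := mu)
    (f := fun (w l : ℝ) => ((q (l * w) * q w : ℝ) : ℂ) * cor h (Real.sqrt l) 1) hint
  rw [e6, ← integral_neg]
  refine integral_congr_ae ?_
  have h0 : ∀ᵐ v : ℝ ∂mu, v ≠ 1 := by
    refine ae_restrict_of_ae ?_
    rw [ae_iff]
    simp
  filter_upwards [ae_restrict_mem measurableSet_Ioc, h0] with l hl hl1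
  have e7 := hk l hl.1 (lt_of_le_of_ne hl.2 hl1)
  rw [intervalIntegral.integral_of_le zero_le_one] at e7
  rw [integral_mul_const, integral_complex_ofReal, e7]
  push_cast
  ring

theorem full (q : ℝ → ℝ) (hq : Continuous q)
    (hk : ∀ lam : ℝ, 0 < lam → lam < 1 → ∫ w in (0 : ℝ)..1, q (lam * w) * q w = - q lam)
    (h : ℂ → ℂ) (hm : Measurable h)
    (hI : Integrable (fun z : ℂ => ‖h z‖ ^ 2) (volume : Measure ℂ)) :
    ∫ z : ℂ, KK q h z * (starRingEnd ℂ) (KK q h z) =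
      - (∫ v, (q v : ℂ) * cor h (Real.sqrt v) 1 ∂mu) -
        (starRingEnd ℂ) (∫ v, (q v : ℂ) * cor h (Real.sqrt v) 1 ∂mu) := by
  rw [KK_sq q hq h hm hI]
  have hW := WW_int q hq h hm hI
  have hs : MeasurableSet {p : ℝ × ℝ | p.1 < p.2} := measurableSet_lt measurable_fst measurable_snd
  have ht : MeasurableSet {p : ℝ × ℝ | p.1 ≤ p.2} := measurableSet_le measurable_fst measurable_snd
  have h1 := half q hq hk h hm hI {p : ℝ × ℝ | p.1 < p.2} hs (fun v w hvw => hvw)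
    (fun v w hvw => by simpa using hvw.le)
  have h2 := half q hq hk h hm hI {p : ℝ × ℝ | p.1 ≤ p.2} ht (fun v w hvw => by simpa using hvw.le)
    (fun v w hvw => by simpa using hvw)
  have e0 : ∫ p, ((q p.1 : ℂ) * (q p.2 : ℂ)) * cor h (Real.sqrt p.1) (Real.sqrt p.2) ∂(mu.prod mu) =
      ∫ p, {p : ℝ × ℝ | p.1 < p.2}.indicator
        (fun p : ℝ × ℝ => ((q p.1 : ℂ) * (q p.2 : ℂ)) * cor h (Real.sqrt p.1) (Real.sqrt p.2)) p ∂(mu.prod mu) +
      ∫ p, {p : ℝ × ℝ | p.1 < p.2}ᶜ.indicator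
        (fun p : ℝ × ℝ => ((q p.1 : ℂ) * (q p.2 : ℂ)) * cor h (Real.sqrt p.1) (Real.sqrt p.2)) p
          ∂(mu.prod mu) := by
    rw [integral_indicator hs, integral_indicator hs.compl, integral_add_compl hs hW]
  have e1 : ∫ p, {p : ℝ × ℝ | p.1 < p.2}ᶜ.indicator
        (fun p : ℝ × ℝ => ((q p.1 : ℂ) * (q p.2 : ℂ)) * cor h (Real.sqrt p.1) (Real.sqrt p.2)) p
          ∂(mu.prod mu) = (starRingEnd ℂ) (∫ p, {p : ℝ × ℝ | p.1 ≤ p.2}.indicator
        (fun p : ℝ × ℝ => ((q p.1 : ℂ) * (q p.2 : ℂ)) * cor h (Real.sqrt p.1) (Real.sqrt p.2)) p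
          ∂(mu.prod mu)) := by
    rw [← integral_conj, ← integral_prod_swap]
    refine integral_congr_ae (Eventually.of_forall fun p => ?_)
    obtain ⟨v, w⟩ := p
    simp only [Prod.swap_prod_mk]
    by_cases hvw : v ≤ w
    · rw [indicator_of_mem (by simpa using hvw), indicator_of_mem (by simpa using hvw)]
      simp only [map_mul, Complex.conj_ofReal, cor_conj]
      ring
    · rw [indicator_of_notMem (by simpa using hvw), indicator_of_notMem (by simpa using hvw)]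
      simp
  rw [e0, e1, h1, h2, map_neg]
  ring

theorem KK_h_int (q : ℝ → ℝ) (hq : Continuous q) (h : ℂ → ℂ) (hm : Measurable h)
    (hI : Integrable (fun z : ℂ => ‖h z‖ ^ 2) (volume : Measure ℂ)) :
    Integrable (fun x : ℝ × ℂ => ((q x.1 : ℂ) * h ((Real.sqrt x.1 : ℂ) * x.2)) * (starRingEnd ℂ) (h x.2))
      (mu.prod (volume : Measure ℂ)) := by
  obtain ⟨C, hC⟩ := isCompact_Icc.exists_bound_of_continuousOn (s := Icc (0 : ℝ) 1) hq.continuousOn
  have hC0 : 0 ≤ C := le_trans (norm_nonneg _) (hC 0 (by simp))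
  have hq' := hq.measurable
  have hM : Measurable (fun x : ℝ × ℂ => ((q x.1 : ℂ) * h ((Real.sqrt x.1 : ℂ) * x.2)) *
      (starRingEnd ℂ) (h x.2)) := by
    refine Measurable.mul (by fun_prop) ?_
    exact Complex.continuous_conj.measurable.comp (by fun_prop)
  rw [integrable_prod_iff hM.aestronglyMeasurable]
  have hn : ∀ (v : ℝ) (z : ℂ), ‖((q v : ℂ) * h ((Real.sqrt v : ℂ) * z)) * (starRingEnd ℂ) (h z)‖ =
      |q v| * (‖h ((Real.sqrt v : ℂ) * z)‖ * ‖h (((1 : ℝ) : ℂ) * z)‖) := by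
    intro v z
    rw [norm_mul, RCLike.norm_conj, norm_mul, Complex.norm_real, Real.norm_eq_abs, Complex.ofReal_one, one_mul]
    ring
  constructor
  · filter_upwards [ae_restrict_mem measurableSet_Ioc] with v hv
    have h1 := (pairI h hm hI (Real.sqrt v) 1 (Real.sqrt_pos.2 hv.1) one_pos).1
    refine (h1.const_mul (|q v|)).mono' ?_ (Eventually.of_forall fun z => ?_)
    · exact (hM.comp (by fun_prop : Measurable fun z : ℂ => (v, z))).aestronglyMeasurable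
    · rw [hn]
  · refine (sqI.const_mul (C * ∫ z : ℂ, ‖h z‖ ^ 2)).mono' ?_ ?_
    · exact (hM.norm.stronglyMeasurable.integral_prod_right').aestronglyMeasurable
    · filter_upwards [ae_restrict_mem measurableSet_Ioc] with v hv
      have h1 := (pairI h hm hI (Real.sqrt v) 1 (Real.sqrt_pos.2 hv.1) one_pos).2
      simp only [hn]
      rw [integral_const_mul, Real.norm_of_nonneg (by positivity)]
      have h3 : |q v| ≤ C := hC v ⟨hv.1.le, hv.2⟩
      calc |q v| * ∫ z : ℂ, ‖h ((Real.sqrt v : ℂ) * z)‖ * ‖h (((1 : ℝ) : ℂ) * z)‖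
          ≤ C * ((Real.sqrt v)⁻¹ * 1⁻¹ * ∫ z : ℂ, ‖h z‖ ^ 2) := by
            refine mul_le_mul h3 h1 (by positivity) hC0
        _ = _ := by ring

theorem KK_h (q : ℝ → ℝ) (hq : Continuous q) (h : ℂ → ℂ) (hm : Measurable h)
    (hI : Integrable (fun z : ℂ => ‖h z‖ ^ 2) (volume : Measure ℂ)) :
    Integrable (fun z : ℂ => KK q h z * (starRingEnd ℂ) (h z)) (volume : Measure ℂ) ∧
    ∫ z : ℂ, KK q h z * (starRingEnd ℂ) (h z) = ∫ v, (q v : ℂ) * cor h (Real.sqrt v) 1 ∂mu := by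
  have h0 := KK_h_int q hq h hm hI
  have e1 : ∀ z : ℂ, ∫ v, ((q v : ℂ) * h ((Real.sqrt v : ℂ) * z)) * (starRingEnd ℂ) (h z) ∂mu =
      KK q h z * (starRingEnd ℂ) (h z) := by
    intro z
    rw [integral_mul_const]
    rfl
  constructor
  · have h1 := h0.integral_prod_right
    simpa only [e1] using h1
  · have h1 := integral_integral_swap (μ := mu) (ν := (volume : Measure ℂ))
      (f := fun (v : ℝ) (z : ℂ) => ((q v : ℂ) * h ((Real.sqrt v : ℂ) * z)) * (starRingEnd ℂ) (h z)) h0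
    simp only [e1] at h1
    rw [← h1]
    refine integral_congr_ae (Eventually.of_forall fun v => ?_)
    simp only [cor]
    rw [← integral_const_mul]
    refine integral_congr_ae (Eventually.of_forall fun z => ?_)
    simp only [Complex.ofReal_one, one_mul]
    ring

/-- **Job E.** -/
theorem e : Pool.Agent.Q276.BA.S_E := by
  intro q hq hk h hh
  by_cases hfin : ∫⁻ z : ℂ, ‖h z‖ₑ ^ 2 = ⊤
  · rw [hfin]
    exact le_top
  have hm : Measurable h := hh.1
  have hI : Integrable (fun z : ℂ => ‖h z‖ ^ 2) (volume : Measure ℂ) := by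
    refine ⟨(hm.norm.pow_const 2).aestronglyMeasurable, ?_⟩
    rw [hasFiniteIntegral_iff_enorm]
    refine lt_of_le_of_lt (le_of_eq ?_) (lt_top_iff_ne_top.2 hfin)
    refine lintegral_congr fun z => ?_
    rw [enorm_pow, enorm_norm]
  have e1 : ∀ z : ℂ, Pool.Agent.Q276.BA.AA q h z = h z + KK q h z := by
    intro z
    unfold Pool.Agent.Q276.BA.AA KK
    rw [intervalIntegral.integral_of_le zero_le_one]
  obtain ⟨h1, h2⟩ := KK_h q hq h hm hI
  have h3 := KK_sqI q hq h hm hI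
  have h4 := full q hq hk h hm hI
  rw [← h2] at h4
  have e2 : ∀ z : ℂ, ‖Pool.Agent.Q276.BA.AA q h z‖ ^ 2 =
      ‖h z‖ ^ 2 + 2 * (KK q h z * (starRingEnd ℂ) (h z)).re + (KK q h z * (starRingEnd ℂ) (KK q h z)).re := by
    intro z
    rw [e1, ← Complex.normSq_eq_norm_sq, ← Complex.normSq_eq_norm_sq, Complex.normSq_apply, Complex.normSq_apply]
    simp only [Complex.add_re, Complex.add_im, Complex.mul_re, Complex.conj_re, Complex.conj_im]
    ring
  have h5 : Integrable (fun z : ℂ => (KK q h z * (starRingEnd ℂ) (h z)).re) (volume : Measure ℂ) := h1.re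
  have h6 : Integrable (fun z : ℂ => (KK q h z * (starRingEnd ℂ) (KK q h z)).re) (volume : Measure ℂ) := h3.re
  have e3 : ∫ z : ℂ, (KK q h z * (starRingEnd ℂ) (h z)).re =
      (∫ z : ℂ, KK q h z * (starRingEnd ℂ) (h z)).re := integral_re h1
  have e4 : ∫ z : ℂ, (KK q h z * (starRingEnd ℂ) (KK q h z)).re =
      (∫ z : ℂ, KK q h z * (starRingEnd ℂ) (KK q h z)).re := integral_re h3
  have h7 : Integrable (fun z : ℂ => ‖Pool.Agent.Q276.BA.AA q h z‖ ^ 2) (volume : Measure ℂ) := by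
    simp only [e2]
    exact (hI.add (h5.const_mul 2)).add h6
  have e5 : ∫ z : ℂ, ‖Pool.Agent.Q276.BA.AA q h z‖ ^ 2 = ∫ z : ℂ, ‖h z‖ ^ 2 := by
    have hA : Integrable (fun z : ℂ => ‖h z‖ ^ 2 + 2 * (KK q h z * (starRingEnd ℂ) (h z)).re)
        (volume : Measure ℂ) := hI.add (h5.const_mul 2)
    simp only [e2]
    rw [integral_add hA h6, integral_add hI (h5.const_mul 2), integral_const_mul,
      e3, e4, h4]
    simp only [Complex.sub_re, Complex.neg_re, Complex.conj_re]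
    ring
  have e6 : ∀ f : ℂ → ℂ, Integrable (fun z : ℂ => ‖f z‖ ^ 2) (volume : Measure ℂ) →
      ∫⁻ z : ℂ, ‖f z‖ₑ ^ 2 = ENNReal.ofReal (∫ z : ℂ, ‖f z‖ ^ 2) := by
    intro f hf
    rw [ofReal_integral_eq_lintegral_ofReal hf (Eventually.of_forall fun z => by positivity)]
    refine lintegral_congr fun z => ?_
    rw [ENNReal.ofReal_pow (norm_nonneg _), ofReal_norm]
  rw [e6 _ h7, e6 _ hI, e5]

end Pool.Agent.Q121.BA.E
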