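import Pool.Agent.Q276.BA.Stm3
import Pool.Agent.Q130.BA.H12

/-!
# Project BA, job N5 (helper121)
-/

set_option autoImplicit false

open MeasureTheory Set Filter Topology
open scoped BigOperators ENNReal

namespace Pool.Agent.Q121.BA.N5

open Pool.Agent.Q276.BA

theorem den_ne (t v θ : ℝ) (ht0 : 0 < t) (ht1 : t < 1) (hv : v ≤ 1) :
    ‖1 - ((Real.sqrt v * Real.sqrt t : ℝ) : ℂ) * Complex.exp (θ * Complex.I)‖ ≠ 0 := by
  rw [norm_ne_zero_iff, sub_ne_zero]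
  intro h
  have h1 : ‖(1 : ℂ)‖ = ‖((Real.sqrt v * Real.sqrt t : ℝ) : ℂ) * Complex.exp (θ * Complex.I)‖ := by rw [← h]
  rw [norm_one, norm_mul, Complex.norm_exp_ofReal_mul_I, mul_one, Complex.norm_real, Real.norm_of_nonneg
    (by positivity)] at h1
  have h2 : Real.sqrt v ≤ 1 := by
    rw [← Real.sqrt_one]
    exact Real.sqrt_le_sqrt hv
  have h3 : Real.sqrt t < 1 := by
    rw [← Real.sqrt_one]
    exact Real.sqrt_lt_sqrt ht0.le ht1
  have h4 : Real.sqrt v * Real.sqrt t ≤ 1 * Real.sqrt t := mul_le_mul_of_nonneg_right h2 (Real.sqrt_nonneg _)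
  linarith

theorem ker_cont (n : ℕ) (t : ℝ) (ht0 : 0 < t) (ht1 : t < 1) :
    ContinuousOn (fun v : ℝ => (1 / (2 * Real.pi)) * ∫ θ in (0 : ℝ)..(2 * Real.pi), ker2 n t v θ) (Icc 0 1) := by
  have h1 : Continuous (fun v : ℝ => (1 / (2 * Real.pi)) *
      ∫ θ in (0 : ℝ)..(2 * Real.pi), ker2 n t (min v 1) θ) := by
    refine continuous_const.mul ?_
    refine intervalIntegral.continuous_parametric_intervalIntegral_of_continuous' ?_ _ _
    unfold ker2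
    simp only [Function.uncurry_def]
    refine Continuous.div ?_ ?_ ?_
    · fun_prop
    · fun_prop
    · intro x
      exact pow_ne_zero _ (den_ne t _ _ ht0 ht1 (min_le_right _ _))
  refine h1.continuousOn.congr fun v hv => ?_
  simp only [min_eq_left hv.2]

theorem int_w : IntervalIntegrable (fun v : ℝ => (1 - v) ^ (-(3 / 4) : ℝ)) volume 0 1 ∧
    ∫ v in (0 : ℝ)..1, (1 - v) ^ (-(3 / 4) : ℝ) = 4 := by
  constructor
  · have h := (intervalIntegral.intervalIntegrable_rpow' (a := 0) (b := 1) (r := -(3 / 4)) (by norm_num))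
    have h2 := h.comp_sub_left 1
    simp only [sub_zero, sub_self] at h2
    exact h2.symm
  · have h := intervalIntegral.integral_comp_sub_left (a := (0 : ℝ)) (b := 1)
      (fun v : ℝ => v ^ (-(3 / 4) : ℝ)) 1
    rw [h, sub_self, sub_zero, integral_rpow (Or.inl (by norm_num))]
    norm_num

theorem rp_w (v : ℝ) (hv : v < 1) (g R : ℝ) (hg : 0 ≤ g) (hR : 0 < R) :
    Real.sqrt g ≤ (R / 2) * (1 - v) ^ (-(3 / 4) : ℝ) + (1 / (2 * R)) * ((1 - v) ^ (3 / 4 : ℝ) * g) := by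
  have h0 : 0 < 1 - v := by linarith
  have h1 : 0 < (1 - v) ^ (3 / 4 : ℝ) := Real.rpow_pos_of_pos h0 _
  rw [Real.rpow_neg h0.le]
  set w := (1 - v) ^ (3 / 4 : ℝ)
  have hs : Real.sqrt g * Real.sqrt g = g := Real.mul_self_sqrt hg
  have h2 : (R / 2) * w⁻¹ + (1 / (2 * R)) * (w * g) - Real.sqrt g = (R - w * Real.sqrt g) ^ 2 / (2 * R * w) := by
    nth_rewrite 1 [← hs]
    field_simp
    ring
  have h3 : 0 ≤ (R - w * Real.sqrt g) ^ 2 / (2 * R * w) := by positivity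
  linarith

theorem cs (G : ℝ → ℝ) (hG : Continuous G) (hG0 : ∀ v, 0 ≤ G v) (R B : ℝ) (hR : 0 < R)
    (hB : ∫ v in (0 : ℝ)..1, (1 - v) ^ (3 / 4 : ℝ) * G v ≤ B) :
    ∫ v in (0 : ℝ)..1, Real.sqrt (G v) ≤ 2 * R + B / (2 * R) := by
  have i1 := int_w.1
  have hw : Continuous (fun v : ℝ => (1 - v) ^ (3 / 4 : ℝ)) :=
    (continuous_const.sub continuous_id).rpow_const (fun v => Or.inr (by norm_num))
  have i2 : IntervalIntegrable (fun v => (1 - v) ^ (3 / 4 : ℝ) * G v) volume 0 1 :=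
    (hw.mul hG).intervalIntegrable _ _
  have i3 : IntervalIntegrable (fun v => Real.sqrt (G v)) volume 0 1 :=
    (Real.continuous_sqrt.comp hG).intervalIntegrable _ _
  have h1 : ∫ v in (0 : ℝ)..1, Real.sqrt (G v) ≤
      ∫ v in (0 : ℝ)..1, ((R / 2) * (1 - v) ^ (-(3 / 4) : ℝ) + (1 / (2 * R)) * ((1 - v) ^ (3 / 4 : ℝ) * G v)) := by
    refine intervalIntegral.integral_mono_on_of_le_Ioo zero_le_one i3
      ((i1.const_mul _).add (i2.const_mul _)) ?_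
    intro v hv
    exact rp_w v hv.2 (G v) R (hG0 v) hR
  refine h1.trans ?_
  rw [intervalIntegral.integral_add (i1.const_mul _) (i2.const_mul _), intervalIntegral.integral_const_mul,
    intervalIntegral.integral_const_mul, int_w.2]
  have h2 : 1 / (2 * R) * ∫ v in (0 : ℝ)..1, (1 - v) ^ (3 / 4 : ℝ) * G v ≤ 1 / (2 * R) * B :=
    mul_le_mul_of_nonneg_left hB (by positivity)
  calc R / 2 * 4 + 1 / (2 * R) * ∫ v in (0 : ℝ)..1, (1 - v) ^ (3 / 4 : ℝ) * G v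
      ≤ R / 2 * 4 + 1 / (2 * R) * B := by linarith
    _ = 2 * R + B / (2 * R) := by ring

theorem exp_num : Real.exp (10 / 7) ≤ 4.38 := by
  have h1 : Real.exp (10 / 7) ^ 7 = Real.exp 1 ^ 10 := by
    rw [← Real.exp_nat_mul, ← Real.exp_nat_mul]
    norm_num
  have h2 : Real.exp 1 ^ 10 ≤ (2.7182818286 : ℝ) ^ 10 :=
    pow_le_pow_left₀ (Real.exp_pos _).le Real.exp_one_lt_d9.le _
  have h3 : Real.exp (10 / 7) ^ 7 ≤ (4.38 : ℝ) ^ 7 := by
    rw [h1]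
    refine h2.trans ?_
    norm_num
  exact le_of_pow_le_pow_left₀ (by norm_num) (by norm_num) h3

theorem pow_num : (4 / 5 : ℝ) ^ (5 / 4 : ℝ) ≤ 0.76 := by
  have h0 : (0 : ℝ) ≤ (4 / 5 : ℝ) ^ (5 / 4 : ℝ) := by positivity
  have h1 : ((4 / 5 : ℝ) ^ (5 / 4 : ℝ)) ^ 4 = (4 / 5 : ℝ) ^ 5 := by
    rw [← Real.rpow_natCast, ← Real.rpow_mul (by norm_num), ← Real.rpow_natCast]
    norm_num
  have h3 : ((4 / 5 : ℝ) ^ (5 / 4 : ℝ)) ^ 4 ≤ (0.76 : ℝ) ^ 4 := by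
    rw [h1]
    norm_num
  exact le_of_pow_le_pow_left₀ (by norm_num) (by norm_num) h3

theorem n5 : S_N5 := by
  intro hN1 hN2 n D hn hX
  have hn1 : (1 : ℝ) ≤ n := by exact_mod_cast hn
  have hX1 : (3 : ℝ) ≤ (n : ℝ) + D := by exact_mod_cast hX
  set X : ℝ := (n : ℝ) + D with hXd
  have hX0 : 0 < X := by linarith
  obtain ⟨t, htd⟩ : ∃ t : ℝ, t = 1 - 5 / (4 * X) := ⟨_, rfl⟩
  have ht5 : 5 / (4 * X) ≤ 5 / 12 := by
    rw [div_le_div_iff₀ (by positivity) (by norm_num)]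
    linarith
  have ht6 : 0 < 5 / (4 * X) := by positivity
  have ht0 : 0 < t := by rw [htd]; linarith
  have ht1 : t < 1 := by rw [htd]; linarith
  set R : ℝ := (n : ℝ) ^ (3 / 8 : ℝ) * X ^ (5 / 8 : ℝ) with hRd
  have hR : 0 < R := by positivity
  have hR2 : R * R = (n : ℝ) ^ (3 / 4 : ℝ) * X ^ (5 / 4 : ℝ) := by
    have e1 : (n : ℝ) ^ (3 / 4 : ℝ) = (n : ℝ) ^ (3 / 8 : ℝ) * (n : ℝ) ^ (3 / 8 : ℝ) := by
      rw [← Real.rpow_add (by linarith)]
      norm_num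
    have e2 : X ^ (5 / 4 : ℝ) = X ^ (5 / 8 : ℝ) * X ^ (5 / 8 : ℝ) := by
      rw [← Real.rpow_add hX0]
      norm_num
    rw [e1, e2, hRd]
    ring
  have hGc : Continuous (fun v => ∑ k ∈ Finset.Icc (-(D : ℤ)) n, (QQ n k v) ^ 2) :=
    continuous_finsetSum _ (fun k _ => (Pool.Agent.Q130.BA.H12.QQ_cont n k).pow 2)
  have hG1 : ∀ v ∈ Icc (0 : ℝ) 1, ∑ k ∈ Finset.Icc (-(D : ℤ)) n, (QQ n k v) ^ 2 ≤
      (t ^ D)⁻¹ * ((1 / (2 * Real.pi)) * ∫ θ in (0 : ℝ)..(2 * Real.pi), ker2 n t v θ) := by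
    intro v hv
    have h1 := hN1 n t v (Finset.Icc (-(D : ℤ)) n) hn ht0 ht1 hv.1 hv.2 (fun k hk => (Finset.mem_Icc.1 hk).2)
    refine le_trans ?_ (mul_le_mul_of_nonneg_left h1 (by positivity))
    rw [Finset.mul_sum]
    refine Finset.sum_le_sum fun k hk => ?_
    have h2 : (1 : ℝ) ≤ (t ^ D)⁻¹ * t ^ (-k) := by
      have h3 : (t ^ D)⁻¹ * t ^ (-k) = t ^ (-(D : ℤ) + -k) := by
        rw [zpow_add₀ ht0.ne', zpow_neg t (D : ℤ), zpow_natCast]
      rw [h3]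
      refine one_le_zpow_of_nonpos₀ ht0 ht1.le ?_
      have := (Finset.mem_Icc.1 hk).1
      omega
    calc QQ n k v ^ 2 = 1 * QQ n k v ^ 2 := by ring
      _ ≤ ((t ^ D)⁻¹ * t ^ (-k)) * QQ n k v ^ 2 := mul_le_mul_of_nonneg_right h2 (sq_nonneg _)
      _ = (t ^ D)⁻¹ * (QQ n k v ^ 2 * t ^ (-k)) := by ring
  have hw : Continuous (fun v : ℝ => (1 - v) ^ (3 / 4 : ℝ)) :=
    (continuous_const.sub continuous_id).rpow_const (fun v => Or.inr (by norm_num))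
  have hB1 : ∫ v in (0 : ℝ)..1, (1 - v) ^ (3 / 4 : ℝ) * ∑ k ∈ Finset.Icc (-(D : ℤ)) n, (QQ n k v) ^ 2 ≤
      (t ^ D)⁻¹ * ∫ v in (0 : ℝ)..1, (1 - v) ^ (3 / 4 : ℝ) *
        ((1 / (2 * Real.pi)) * ∫ θ in (0 : ℝ)..(2 * Real.pi), ker2 n t v θ) := by
    rw [← intervalIntegral.integral_const_mul]
    refine intervalIntegral.integral_mono_on zero_le_one ((hw.mul hGc).intervalIntegrable _ _) ?_ ?_
    · refine ContinuousOn.intervalIntegrable ?_
      rw [uIcc_of_le zero_le_one]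
      exact continuousOn_const.mul (hw.continuousOn.mul (ker_cont n t ht0 ht1))
    · intro v hv
      have h4 : 0 ≤ (1 - v) ^ (3 / 4 : ℝ) := Real.rpow_nonneg (by linarith [hv.2]) _
      calc (1 - v) ^ (3 / 4 : ℝ) * ∑ k ∈ Finset.Icc (-(D : ℤ)) n, (QQ n k v) ^ 2
          ≤ (1 - v) ^ (3 / 4 : ℝ) * ((t ^ D)⁻¹ *
            ((1 / (2 * Real.pi)) * ∫ θ in (0 : ℝ)..(2 * Real.pi), ker2 n t v θ)) :=
            mul_le_mul_of_nonneg_left (hG1 v hv) h4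
        _ = _ := by ring
  have hB2 : (t ^ D)⁻¹ * (1.2 * (n : ℝ) ^ (3 / 4 : ℝ) * (1 - t) ^ (-(5 / 4) : ℝ) / t ^ (n - 1)) ≤ 4 * (R * R) := by
    have e1 : (1 - t) ^ (-(5 / 4) : ℝ) = (4 / 5 : ℝ) ^ (5 / 4 : ℝ) * X ^ (5 / 4 : ℝ) := by
      have e2 : 1 - t = (4 / 5 * X)⁻¹ := by
        rw [htd]
        field_simp
        ring
      rw [e2, Real.rpow_neg (by positivity), Real.inv_rpow (by positivity), inv_inv,
        Real.mul_rpow (by norm_num) hX0.le]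
    have e3 : (t ^ D)⁻¹ * (t ^ (n - 1))⁻¹ ≤ 4.38 := by
      have e4 : t⁻¹ ≤ Real.exp (5 / (4 * X - 5)) := by
        have e5 : t⁻¹ = 5 / (4 * X - 5) + 1 := by
          have h6 : 4 * X - 5 ≠ 0 := by
            have : 0 < 4 * X - 5 := by linarith
            exact this.ne'
          have h7 : t = (4 * X - 5) / (4 * X) := by
            rw [htd]
            field_simp
          rw [h7, inv_div]
          field_simp
          ring
        rw [e5]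
        exact Real.add_one_le_exp _
      have e6 : (t ^ D)⁻¹ * (t ^ (n - 1))⁻¹ = (t⁻¹) ^ (D + (n - 1)) := by
        rw [← mul_inv, ← pow_add, inv_pow]
      rw [e6]
      refine (pow_le_pow_left₀ (by positivity) e4 _).trans ?_
      rw [← Real.exp_nat_mul]
      refine le_trans (Real.exp_le_exp.2 ?_) exp_num
      have e7 : ((D + (n - 1) : ℕ) : ℝ) = X - 1 := by
        rw [Nat.cast_add, Nat.cast_sub hn, hXd]
        push_cast
        ring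
      rw [e7, mul_div_assoc', div_le_div_iff₀ (by linarith) (by norm_num)]
      linarith
    rw [hR2, e1]
    have e8 : (t ^ D)⁻¹ * (1.2 * (n : ℝ) ^ (3 / 4 : ℝ) * ((4 / 5 : ℝ) ^ (5 / 4 : ℝ) * X ^ (5 / 4 : ℝ)) / t ^ (n - 1)) =
        1.2 * ((4 / 5 : ℝ) ^ (5 / 4 : ℝ) * ((t ^ D)⁻¹ * (t ^ (n - 1))⁻¹)) *
          ((n : ℝ) ^ (3 / 4 : ℝ) * X ^ (5 / 4 : ℝ)) := by
      rw [div_eq_mul_inv]
      ring
    rw [e8]
    refine mul_le_mul_of_nonneg_right ?_ (by positivity)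
    have e9 : (4 / 5 : ℝ) ^ (5 / 4 : ℝ) * ((t ^ D)⁻¹ * (t ^ (n - 1))⁻¹) ≤ 0.76 * 4.38 :=
      mul_le_mul pow_num e3 (by positivity) (by norm_num)
    calc 1.2 * ((4 / 5 : ℝ) ^ (5 / 4 : ℝ) * ((t ^ D)⁻¹ * (t ^ (n - 1))⁻¹)) ≤ 1.2 * (0.76 * 4.38) :=
          mul_le_mul_of_nonneg_left e9 (by norm_num)
      _ ≤ 4 := by norm_num
  have hB : ∫ v in (0 : ℝ)..1, (1 - v) ^ (3 / 4 : ℝ) * ∑ k ∈ Finset.Icc (-(D : ℤ)) n, (QQ n k v) ^ 2 ≤
      4 * (R * R) :=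
    hB1.trans ((mul_le_mul_of_nonneg_left (hN2 n t hn ht0 ht1) (by positivity)).trans hB2)
  have hfin := cs _ hGc (fun v => Finset.sum_nonneg (fun k _ => sq_nonneg _)) R _ hR hB
  refine hfin.trans (le_of_eq ?_)
  have h10 : 4 * (R * R) / (2 * R) = 2 * R := by
    field_simp
    ring
  rw [h10, hRd]
  ring

end Pool.Agent.Q121.BA.N5
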